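import Pool.Agent.H96.TameAsy
import Pool.Agent.H607R2.BW.GIR

/-!
# Graphs of girth larger than four and tame sets: the bound with individual numbers of pieces
-/

set_option autoImplicit false

namespace Pool.Agent.T63.GT

open Finset Pool.Agent.H96.Ppz Pool.Agent.H96.Ppsz Pool.Agent.H96.Tame

variable {m : ℕ}

open Classical in
/-- A union of tame sets has few elements outside segments. -/
lemma pieces_rich {N : ℕ} (c : Fin N → ℕ) (T : Fin N → Set (Fin m → Bool))
    (hT : ∀ j, Tame (c j) (T j)) {S : Set (Fin m → Bool)} (hS : S = ⋃ j, T j) :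
    (univ.filter (fun z => z ∈ S ∧ ¬ ∃ 𝒲 : Finset (Finset (Fin m)), Fam 2 𝒲 ∧ 𝒲.card = 1 ∧
      z ∈ Cube 𝒲 S)).card ≤ ∑ j, 2 ^ c j := by
  have hsub : univ.filter (fun z => z ∈ S ∧ ¬ ∃ 𝒲 : Finset (Finset (Fin m)), Fam 2 𝒲 ∧
      𝒲.card = 1 ∧ z ∈ Cube 𝒲 S) ⊆ (univ : Finset (Fin N)).biUnion (fun j =>
      univ.filter (fun z => z ∈ T j ∧ ¬ ∃ 𝒲 : Finset (Finset (Fin m)), Fam 2 𝒲 ∧ 𝒲.card = 1 ∧
        z ∈ Cube 𝒲 (T j))) := by
    intro z hz
    obtain ⟨hzS, hno⟩ := (Finset.mem_filter.1 hz).2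
    rw [hS] at hzS
    obtain ⟨j, hj⟩ := Set.mem_iUnion.1 hzS
    refine Finset.mem_biUnion.2 ⟨j, Finset.mem_univ _,
      Finset.mem_filter.2 ⟨Finset.mem_univ _, hj, ?_⟩⟩
    rintro ⟨𝒲, h1, h2, h3⟩
    refine hno ⟨𝒲, h1, h2, fun I hI => ?_⟩
    rw [hS]
    exact Set.mem_iUnion.2 ⟨j, h3 I hI⟩
  refine (Finset.card_le_card hsub).trans (Finset.card_biUnion_le.trans ?_)
  refine Finset.sum_le_sum fun j _ => ?_
  have := tame_rich (hT j) 1
  simpa using this

open Classical in
/-- Counting incidences, with individual bounds. -/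
theorem count_rich' {V : Type*} [Fintype V] {d r u a : ℕ} (B : V → ℕ) (hra : r ≤ 2 ^ a)
    (T : V → Set (Fin m → Bool))
    (hT : ∀ x, (univ.filter (fun z => z ∈ T x ∧ ¬ ∃ 𝒲 : Finset (Finset (Fin m)), Fam d 𝒲 ∧
      𝒲.card = a ∧ z ∈ Cube 𝒲 (T x))).card ≤ B x)
    (hfree : ∀ (X : Finset V) (Y : Finset (Fin m → Bool)), X.card = u → Y.card = r →
      (∀ x ∈ X, ∀ y ∈ Y, y ∈ T x) → False) :
    (∑ x, (univ.filter (fun z => z ∈ T x)).card) ≤
      (∑ x, B x) + u * (m + 1) ^ (d * a) * 2 ^ m := by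
  have hpt : ∀ (𝒲 : Finset (Finset (Fin m))) (z : Fin m → Bool), Fam d 𝒲 → 𝒲.card = a →
      (univ.filter (fun x : V => z ∈ Cube 𝒲 (T x))).card ≤ u := by
    intro 𝒲 z hF hc
    by_contra hcon
    push Not at hcon
    obtain ⟨X, hX, hXc⟩ := Finset.exists_subset_card_eq hcon.le
    have hbox := card_points hF z
    rw [hc] at hbox
    obtain ⟨Y, hY, hYc⟩ := Finset.exists_subset_card_eq (hra.trans hbox.symm.le)
    refine hfree X Y hXc hYc fun x hx y hy => ?_
    have h1 := (Finset.mem_filter.1 (hX hx)).2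
    obtain ⟨I, hI, rfl⟩ := Finset.mem_image.1 (hY hy)
    exact h1 I (Finset.mem_powerset.1 hI)
  set Fs := univ.filter (fun 𝒲 : Finset (Finset (Fin m)) => Fam d 𝒲 ∧ 𝒲.card = a) with hFs
  have hFc : Fs.card ≤ (m + 1) ^ (d * a) := by
    refine (Finset.card_le_card ?_).trans (card_fam m d a)
    intro 𝒲 h
    obtain ⟨h1, h2⟩ := (Finset.mem_filter.1 h).2
    exact Finset.mem_filter.2 ⟨Finset.mem_univ _, h1, h2.le⟩
  have hx : ∀ x : V, (univ.filter (fun z => z ∈ T x)).card ≤
      B x + ∑ 𝒲 ∈ Fs, (univ.filter (fun z => z ∈ Cube 𝒲 (T x))).card := by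
    intro x
    refine le_trans (Finset.card_le_card (t := (univ.filter (fun z => z ∈ T x ∧
        ¬ ∃ 𝒲 : Finset (Finset (Fin m)), Fam d 𝒲 ∧ 𝒲.card = a ∧ z ∈ Cube 𝒲 (T x))) ∪
        Fs.biUnion (fun 𝒲 => univ.filter (fun z => z ∈ Cube 𝒲 (T x)))) ?_) ?_
    · intro z hz
      have hzT := (Finset.mem_filter.1 hz).2
      by_cases h : ∃ 𝒲 : Finset (Finset (Fin m)), Fam d 𝒲 ∧ 𝒲.card = a ∧ z ∈ Cube 𝒲 (T x)
      · obtain ⟨𝒲, hF, hc, hz⟩ := h
        refine Finset.mem_union_right _ (Finset.mem_biUnion.2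
          ⟨𝒲, Finset.mem_filter.2 ⟨Finset.mem_univ _, hF, hc⟩,
            Finset.mem_filter.2 ⟨Finset.mem_univ _, hz⟩⟩)
      · exact Finset.mem_union_left _ (Finset.mem_filter.2 ⟨Finset.mem_univ _, hzT, h⟩)
    · exact (Finset.card_union_le _ _).trans (Nat.add_le_add (hT x) Finset.card_biUnion_le)
  have hsum : ∑ x : V, ∑ 𝒲 ∈ Fs, (univ.filter (fun z => z ∈ Cube 𝒲 (T x))).card ≤
      u * (m + 1) ^ (d * a) * 2 ^ m := by
    rw [Finset.sum_comm]
    have h1 : ∀ 𝒲 ∈ Fs, ∑ x : V, (univ.filter (fun z => z ∈ Cube 𝒲 (T x))).card ≤ 2 ^ m * u := by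
      intro 𝒲 h𝒲
      obtain ⟨hF, hc⟩ := (Finset.mem_filter.1 h𝒲).2
      have h2 : ∑ x : V, (univ.filter (fun z => z ∈ Cube 𝒲 (T x))).card =
          ∑ z : Fin m → Bool, (univ.filter (fun x : V => z ∈ Cube 𝒲 (T x))).card := by
        simp only [Finset.card_filter]
        rw [Finset.sum_comm]
      rw [h2]
      refine (Finset.sum_le_sum fun z _ => hpt 𝒲 z hF hc).trans ?_
      rw [Finset.sum_const, smul_eq_mul, Finset.card_univ]
      simp
    refine (Finset.sum_le_sum h1).trans ?_
    rw [Finset.sum_const, smul_eq_mul]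
    calc Fs.card * (2 ^ m * u) ≤ (m + 1) ^ (d * a) * (2 ^ m * u) := Nat.mul_le_mul_right _ hFc
      _ = _ := by ring
  calc (∑ x, (univ.filter (fun z => z ∈ T x)).card)
      ≤ ∑ x : V, (B x + ∑ 𝒲 ∈ Fs, (univ.filter (fun z => z ∈ Cube 𝒲 (T x))).card) :=
        Finset.sum_le_sum fun x _ => hx x
    _ = (∑ x, B x) + ∑ x : V, ∑ 𝒲 ∈ Fs, (univ.filter (fun z => z ∈ Cube 𝒲 (T x))).card := by
        rw [Finset.sum_add_distrib]
    _ ≤ _ := Nat.add_le_add_left hsum _

open Classical in
/-- **Neighbourhoods.** -/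
theorem neighbourhoods (m : ℕ) (V : Type) [Fintype V] (lab : V → Fin m → Bool)
    (G : SimpleGraph V) (hlab : Function.Injective lab) (hg : 4 < G.egirth)
    (N : V → ℕ) (c : ∀ x, Fin (N x) → ℕ) (T : ∀ x, Fin (N x) → Set (Fin m → Bool))
    (hT : ∀ x j, Tame (c x j) (T x j)) (hN : ∀ x, lab '' G.neighborSet x = ⋃ j, T x j) :
    2 * Nat.card G.edgeSet ≤ (∑ x, ∑ j, 2 ^ c x j) + 2 * (m + 1) ^ 2 * 2 ^ m := by
  have hfree : (completeBipartiteGraph (Fin 2) (Fin 2)).Free G :=
    Pool.Agent.H607R2.BW.t_GIR V G hg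
  have hcnt := count_rich' (d := 2) (u := 2) (r := 2) (a := 1) (fun x => ∑ j, 2 ^ c x j)
    (by norm_num) (fun x => lab '' G.neighborSet x)
    (fun x => pieces_rich (c x) (T x) (hT x) (hN x)) (by
      intro X Y hX hY hXY
      obtain ⟨x₀, hx₀⟩ : X.Nonempty := Finset.card_pos.1 (by omega)
      have himg : (univ.filter (fun v => lab v ∈ Y)).image lab = Y := by
        ext y
        simp only [Finset.mem_image, Finset.mem_filter, Finset.mem_univ, true_and]
        constructor
        · rintro ⟨v, hv, rfl⟩; exact hv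
        · intro hy
          obtain ⟨v, _, hv⟩ := hXY x₀ hx₀ y hy
          exact ⟨v, by rw [hv]; exact hy, hv⟩
      have hc : (univ.filter (fun v => lab v ∈ Y)).card = 2 := by
        rw [← hY, ← himg, Finset.card_image_of_injective _ hlab, himg]
      refine not_free G X (univ.filter (fun v => lab v ∈ Y)) hX hc ?_ hfree
      intro x hx v hv
      obtain ⟨w, hw, hwv⟩ := hXY x hx _ (Finset.mem_filter.1 hv).2
      rw [← hlab hwv]
      exact hw)
  refine le_trans (le_of_eq ?_) (hcnt.trans (le_of_eq (by norm_num)))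
  have h1 := G.sum_degrees_eq_twice_card_edges
  have h2 : (Nat.card G.edgeSet) = #G.edgeFinset := by
    rw [Nat.card_eq_fintype_card, SimpleGraph.edgeFinset_card]
  rw [h2, ← h1]
  refine Finset.sum_congr rfl fun x _ => ?_
  rw [← G.card_neighborFinset_eq_degree, ← Finset.card_image_of_injective _ hlab]
  congr 1
  ext y
  simp

/-- the left half of the positions -/
def leftHalf (m : ℕ) : Finset (Fin (m + m)) := univ.map (Fin.castAddEmb m)

/-- the right half of the positions -/
def rightHalf (m : ℕ) : Finset (Fin (m + m)) := univ.map (Fin.natAddEmb m)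

lemma card_left (m : ℕ) : (leftHalf m).card = m := by simp [leftHalf]

lemma card_right (m : ℕ) : (rightHalf m).card = m := by simp [rightHalf]

/-- flipping positions of the left half -/
lemma flip_left {x y : Fin m → Bool} {W : Finset (Fin (m + m))} (hW : W ⊆ leftHalf m)
    (hne : W.Nonempty) : ∃ x', x' ≠ x ∧ flipSet (Fin.append x y) W = Fin.append x' y := by
  refine ⟨fun i => flipSet (Fin.append x y) W (Fin.castAdd m i), ?_, ?_⟩
  · intro h
    obtain ⟨q, hq⟩ := hne
    obtain ⟨i, _, rfl⟩ := Finset.mem_map.1 (hW hq)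
    have h1 := congrFun h i
    have hq' : Fin.castAdd m i ∈ W := hq
    simp [flipSet, hq'] at h1
  · funext q
    refine Fin.addCases (fun i => ?_) (fun i => ?_) q
    · rw [Fin.append_left]
    · rw [Fin.append_right]
      have : Fin.natAdd m i ∉ W := by
        intro h
        obtain ⟨j, _, hj⟩ := Finset.mem_map.1 (hW h)
        have := congrArg Fin.val hj
        simp at this
        omega
      show (if Fin.natAdd m i ∈ W then !Fin.append x y (Fin.natAdd m i)
        else Fin.append x y (Fin.natAdd m i)) = y i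
      rw [if_neg this, Fin.append_right]

/-- flipping positions of the right half -/
lemma flip_right {x y : Fin m → Bool} {W : Finset (Fin (m + m))} (hW : W ⊆ rightHalf m)
    (hne : W.Nonempty) : ∃ y', y' ≠ y ∧ (∀ x, flipSet (Fin.append x y) W = Fin.append x y') := by
  refine ⟨fun i => flipSet (Fin.append x y) W (Fin.natAdd m i), ?_, ?_⟩
  · intro h
    obtain ⟨q, hq⟩ := hne
    obtain ⟨i, _, rfl⟩ := Finset.mem_map.1 (hW hq)
    have h1 : (if Fin.natAdd m i ∈ W then !Fin.append x y (Fin.natAdd m i)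
        else Fin.append x y (Fin.natAdd m i)) = y i := congrFun h i
    have hq' : Fin.natAdd m i ∈ W := hq
    rw [if_pos hq', Fin.append_right] at h1
    cases hy : y i <;> rw [hy] at h1 <;> exact absurd h1 (by simp)
  · intro x'
    funext q
    refine Fin.addCases (fun i => ?_) (fun i => ?_) q
    · rw [Fin.append_left]
      have : Fin.castAdd m i ∉ W := by
        intro h
        obtain ⟨j, _, hj⟩ := Finset.mem_map.1 (hW h)
        have := congrArg Fin.val hj
        simp at this
        omega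
      simp [flipSet, this]
    · rw [Fin.append_right]
      show (if Fin.natAdd m i ∈ W then !Fin.append x' y (Fin.natAdd m i)
        else Fin.append x' y (Fin.natAdd m i)) =
        (if Fin.natAdd m i ∈ W then !Fin.append x y (Fin.natAdd m i)
        else Fin.append x y (Fin.natAdd m i))
      rw [Fin.append_right, Fin.append_right]

open Classical in
/-- A tame set of adjacent pairs of a graph of girth larger than four is small. -/
lemma tame_pairs {V : Type} [Fintype V] (lab : V → Fin m → Bool)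
    (G : SimpleGraph V) (hlab : Function.Injective lab) (hg : 4 < G.egirth) {c : ℕ}
    {T : Set (Fin (m + m) → Bool)} (hT : Tame c T)
    (hTG : ∀ z ∈ T, ∃ x y, G.Adj x y ∧ z = Fin.append (lab x) (lab y)) :
    (univ.filter (fun z => z ∈ T)).card ≤ 2 * 2 ^ c * 2 ^ m := by
  have hfree : (completeBipartiteGraph (Fin 2) (Fin 2)).Free G :=
    Pool.Agent.H607R2.BW.t_GIR V G hg
  obtain ⟨τ, κ, hcl⟩ := hT
  have hL := card_code τ κ (leftHalf m) 1
  have hR := card_code τ κ (rightHalf m) 1
  rw [card_left, Nat.sub_self, pow_zero, mul_one, Nat.add_sub_cancel] at hL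
  rw [card_right, Nat.sub_self, pow_zero, mul_one, Nat.add_sub_cancel] at hR
  have hsub : univ.filter (fun z => z ∈ T) ⊆
      (univ.filter (fun z : Fin (m + m) → Bool => ∃ (β : Fin c → Bool) (M : Finset (Fin (m + m))),
        M.card < 1 ∧ ∀ i ∈ leftHalf m, z i = code τ κ β M i)) ∪
      (univ.filter (fun z : Fin (m + m) → Bool => ∃ (β : Fin c → Bool) (M : Finset (Fin (m + m))),
        M.card < 1 ∧ ∀ i ∈ rightHalf m, z i = code τ κ β M i)) := by
    intro z hz
    have hzT := (Finset.mem_filter.1 hz).2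
    rcases exists_moves τ κ (leftHalf m) 1 z with ⟨𝒲, h1, h2, h3⟩ | h
    · rcases exists_moves τ κ (rightHalf m) 1 z with ⟨𝒲', h1', h2', h3'⟩ | h'
      · exfalso
        obtain ⟨W, rfl⟩ := Finset.card_eq_one.1 h1
        obtain ⟨W', rfl⟩ := Finset.card_eq_one.1 h1'
        have hW := h2 W (by simp)
        have hW' := h2' W' (by simp)
        have hdis : ∀ i ∈ W', i ∉ W := by
          intro i hi hi'
          obtain ⟨j, _, hj⟩ := Finset.mem_map.1 (hW.2 hi')
          obtain ⟨j', _, hj'⟩ := Finset.mem_map.1 (hW'.2 hi)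
          have := congrArg Fin.val (hj.trans hj'.symm)
          simp at this
          omega
        have z1 : flipSet z W ∈ T := hcl z hzT W hW.1
        have z2 : flipSet z W' ∈ T := hcl z hzT W' hW'.1
        have z3 : flipSet (flipSet z W) W' ∈ T := by
          refine hcl _ z1 W' (hW'.1.congr fun i hi => ?_)
          simp [flipSet, hdis i hi]
        obtain ⟨x, y, hxy, rfl⟩ := hTG z hzT
        obtain ⟨x', hx', e1⟩ := flip_left (x := lab x) (y := lab y) hW.2 hW.1.nonempty.1
        obtain ⟨y', hy', e2⟩ := flip_right (x := lab x) (y := lab y) hW'.2 hW'.1.nonempty.1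
        rw [e1, e2] at z3
        rw [e1] at z1
        rw [e2] at z2
        have happ : ∀ {a a' b b' : Fin m → Bool}, Fin.append a b = Fin.append a' b' →
            a = a' ∧ b = b' := by
          intro a a' b b' h
          constructor
          · funext i
            have h5 := congrFun h (Fin.castAdd m i)
            rwa [Fin.append_left, Fin.append_left] at h5
          · funext i
            have h5 := congrFun h (Fin.natAdd m i)
            rwa [Fin.append_right, Fin.append_right] at h5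
        obtain ⟨x1, y1, a1, b1⟩ := hTG _ z1
        obtain ⟨x2, y2, a2, b2⟩ := hTG _ z2
        obtain ⟨x3, y3, a3, b3⟩ := hTG _ z3
        obtain ⟨c1, d1⟩ := happ b1
        obtain ⟨c2, d2⟩ := happ b2
        obtain ⟨c3, d3⟩ := happ b3
        have ey1 : y = y1 := hlab d1
        have ex2 : x = x2 := hlab c2
        have ex3 : x1 = x3 := hlab (c1.symm.trans c3)
        have ey3 : y2 = y3 := hlab (d2.symm.trans d3)
        subst ey1; subst ex2; subst ex3; subst ey3
        have nx : x ≠ x1 := fun h => hx' (c1.trans (by rw [h]))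
        have ny : y ≠ y2 := fun h => hy' (d2.trans (by rw [h]))
        refine not_free G {x, x1} {y, y2} (Finset.card_pair nx) (Finset.card_pair ny) ?_ hfree
        intro u hu v hv
        rw [Finset.mem_insert, Finset.mem_singleton] at hu hv
        rcases hu with rfl | rfl <;> rcases hv with rfl | rfl
        · exact hxy
        · exact a2
        · exact a1
        · exact a3
      · exact Finset.mem_union_right _ (Finset.mem_filter.2 ⟨Finset.mem_univ _, h'⟩)
    · exact Finset.mem_union_left _ (Finset.mem_filter.2 ⟨Finset.mem_univ _, h⟩)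
  refine (Finset.card_le_card hsub).trans ((Finset.card_union_le _ _).trans ?_)
  have h3 := Nat.add_le_add hL hR
  refine h3.trans (le_of_eq (by ring))

end Pool.Agent.T63.GT
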